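import Pool.Agent.H98.S4.Targets

/-! (BB) reduction: two vertices of one block with exactly one common neighbour, MP_eb32d7_co. -/

set_option autoImplicit false

namespace Pool.Agent.H19.S4

open Finset Pool.Agent.H98.S4

theorem fin4_three : ∀ a : Fin 4, ∃ i j k : Fin 4, i ≠ a ∧ j ≠ a ∧ k ≠ a ∧ i ≠ j ∧ i ≠ k ∧ j ≠ k := by
  decide

theorem fin4_two : ∀ a b : Fin 4, a ≠ b → ∃ i j : Fin 4, i ≠ j ∧ i ≠ a ∧ i ≠ b ∧ j ≠ a ∧ j ≠ b := by
  decide

theorem s4_BB : T_BB := by
  intro V β _ _ _ G f hD hB h0 hA u v w huv hfuv huw hvw hcom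
  classical
  -- neighbours of w
  have hNw : ∀ y, G.Adj w y → y = u ∨ y = v := by
    intro y hy
    rcases hD w y u v hy huw.symm hvw.symm with h | h | h
    · exact Or.inl h
    · exact Or.inr h
    · exact absurd h huv
  have hfw : f w ≠ f u := fun h => h0 u w huw h.symm
  -- the block of u
  obtain ⟨p, q, hpq, hE⟩ : ∃ p q, p ≠ q ∧
      ((univ.filter (fun x => f x = f u)).erase u).erase v = {p, q} := by
    apply card_eq_two.1
    rw [card_erase_of_mem, card_erase_of_mem, hB u]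
    · simp
    · simp [huv.symm, hfuv]
  have hmem : ∀ x, (x = p ∨ x = q) ↔ (x ≠ v ∧ x ≠ u ∧ f x = f u) := by
    intro x
    have h := congrArg (fun s => x ∈ s) hE
    simp only [mem_erase, mem_filter, mem_univ, true_and, mem_insert, mem_singleton,
      eq_iff_iff] at h
    exact h.symm
  obtain ⟨hpv, hpu, hfp⟩ := (hmem p).1 (Or.inl rfl)
  obtain ⟨hqv, hqu, hfq⟩ := (hmem q).1 (Or.inr rfl)
  have hpw : p ≠ w := fun h => hfw (h ▸ hfp)
  have hqw : q ≠ w := fun h => hfw (h ▸ hfq)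
  have hwu : w ≠ u := fun h => hfw (by rw [h])
  have hwv : w ≠ v := fun h => hfw (by rw [h, hfuv])
  have hblk : ∀ x, f x = f u → x = u ∨ x = v ∨ x = p ∨ x = q := by
    intro x hx
    by_cases h1 : x = u
    · exact Or.inl h1
    by_cases h2 : x = v
    · exact Or.inr (Or.inl h2)
    rcases (hmem x).2 ⟨h2, h1, hx⟩ with h | h
    · exact Or.inr (Or.inr (Or.inl h))
    · exact Or.inr (Or.inr (Or.inr h))
  -- the smaller instance
  let V' := {x : V // x ≠ u ∧ x ≠ v ∧ x ≠ w ∧ x ≠ q}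
  let f' : V' → β := fun x => if x.1 = p then f w else f x.1
  let G' : SimpleGraph V' :=
    { Adj := fun x y => x ≠ y ∧ (G.Adj x.1 y.1 ∨
        (G.Adj x.1 u ∧ G.Adj y.1 v) ∨ (G.Adj x.1 v ∧ G.Adj y.1 u))
      symm := ⟨fun x y h => ⟨h.1.symm, by
        rcases h.2 with h1 | h1 | h1
        · exact Or.inl h1.symm
        · exact Or.inr (Or.inr ⟨h1.2, h1.1⟩)
        · exact Or.inr (Or.inl ⟨h1.2, h1.1⟩)⟩⟩
      loopless := ⟨fun x h => h.1 rfl⟩ }
  have hcard : Fintype.card V' < Fintype.card V := Fintype.card_subtype_lt (x := u) (by simp)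
  -- uniqueness of the other neighbours of u and v
  have hu1 : ∀ x y, G.Adj u x → G.Adj u y → x ≠ w → y ≠ w → x = y := by
    intro x y hx hy hxw hyw
    rcases hD u x y w hx hy huw with h | h | h
    · exact h
    · exact absurd h hxw
    · exact absurd h hyw
  have hv1 : ∀ x y, G.Adj v x → G.Adj v y → x ≠ w → y ≠ w → x = y := by
    intro x y hx hy hxw hyw
    rcases hD v x y w hx hy hvw with h | h | h
    · exact h
    · exact absurd h hxw
    · exact absurd h hyw
  have hnb : ∀ x : V', ¬ (G.Adj x.1 u ∧ G.Adj x.1 v) := by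
    intro x hx
    exact x.2.2.2.1 (hcom x.1 hx.1.symm hx.2.symm)
  have h22 : ∀ x a b : V', ((G.Adj x.1 u ∧ G.Adj a.1 v) ∨ (G.Adj x.1 v ∧ G.Adj a.1 u)) →
      ((G.Adj x.1 u ∧ G.Adj b.1 v) ∨ (G.Adj x.1 v ∧ G.Adj b.1 u)) → a = b := by
    intro x a b ha hb
    rcases ha with ha | ha <;> rcases hb with hb | hb
    · exact Subtype.ext (hv1 _ _ ha.2.symm hb.2.symm a.2.2.2.1 b.2.2.2.1)
    · exact absurd ⟨ha.1, hb.1⟩ (hnb x)
    · exact absurd ⟨hb.1, ha.1⟩ (hnb x)
    · exact Subtype.ext (hu1 _ _ ha.2.symm hb.2.symm a.2.2.2.1 b.2.2.2.1)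
  have h11 : ∀ x a b c : V', ((G.Adj x.1 u ∧ G.Adj c.1 v) ∨ (G.Adj x.1 v ∧ G.Adj c.1 u)) →
      G.Adj x.1 a.1 → G.Adj x.1 b.1 → a = b := by
    intro x a b c hc ha hb
    rcases hc with hc | hc
    · rcases hD x.1 a.1 b.1 u ha hb hc.1 with h | h | h
      · exact Subtype.ext h
      · exact absurd h a.2.1
      · exact absurd h b.2.1
    · rcases hD x.1 a.1 b.1 v ha hb hc.1 with h | h | h
      · exact Subtype.ext h
      · exact absurd h a.2.2.1
      · exact absurd h b.2.2.1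
  have hD' : Deg2 G' := by
    rintro x a b c ⟨-, ha⟩ ⟨-, hb⟩ ⟨-, hc⟩
    rcases ha with ha | ha <;> rcases hb with hb | hb <;> rcases hc with hc | hc
    · rcases hD x.1 a.1 b.1 c.1 ha hb hc with h | h | h
      · exact Or.inl (Subtype.ext h)
      · exact Or.inr (Or.inl (Subtype.ext h))
      · exact Or.inr (Or.inr (Subtype.ext h))
    · exact Or.inl (h11 x a b c hc ha hb)
    · exact Or.inr (Or.inl (h11 x a c b hb ha hc))
    · exact Or.inr (Or.inr (h22 x b c hb hc))
    · exact Or.inr (Or.inr (h11 x b c a ha hb hc))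
    · exact Or.inr (Or.inl (h22 x a c ha hc))
    · exact Or.inl (h22 x a b ha hb)
    · exact Or.inl (h22 x a b ha hb)
  have hpV : p ≠ u ∧ p ≠ v ∧ p ≠ w ∧ p ≠ q := ⟨hpu, hpv, hpw, hpq⟩
  have hB' : Blk4 f' := by
    intro x
    by_cases hx : f' x = f w
    · have h4 : (insert p ((univ.filter (fun y => f y = f w)).erase w)).card = 4 := by
        rw [card_insert_of_notMem, card_erase_of_mem, hB w]
        · simp
        · intro hp
          exact hfw ((mem_filter.1 (mem_erase.1 hp).2).2.symm.trans hfp)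
      rw [← h4]
      refine Finset.card_bij (fun y _ => y.1) ?_ ?_ ?_
      · intro y hy
        have hy1 : f' y = f w := (mem_filter.1 hy).2.trans hx
        by_cases hyp : y.1 = p
        · rw [hyp]; exact mem_insert_self _ _
        · have hy2 : f y.1 = f w := by
            have : f' y = f y.1 := if_neg hyp
            rw [← this]; exact hy1
          exact mem_insert_of_mem (mem_erase.2 ⟨y.2.2.2.1, mem_filter.2 ⟨mem_univ _, hy2⟩⟩)
      · intro a _ b _ h
        exact Subtype.ext h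
      · intro y hy
        rcases mem_insert.1 hy with rfl | hy
        · refine ⟨⟨y, hpV⟩, mem_filter.2 ⟨mem_univ _, ?_⟩, rfl⟩
          rw [hx]; exact if_pos rfl
        · obtain ⟨hyw, hy⟩ := mem_erase.1 hy
          have hfy := (mem_filter.1 hy).2
          refine ⟨⟨y, ?_, ?_, hyw, ?_⟩, mem_filter.2 ⟨mem_univ _, ?_⟩, rfl⟩
          · rintro rfl; exact hfw hfy.symm
          · rintro rfl; exact hfw (hfy.symm.trans hfuv.symm)
          · rintro rfl; exact hfw (hfy.symm.trans hfq)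
          · have hyp : y ≠ p := by rintro rfl; exact hfw (hfy.symm.trans hfp)
            have : f' ⟨y, by rintro rfl; exact hfw hfy.symm,
                by rintro rfl; exact hfw (hfy.symm.trans hfuv.symm), hyw,
                by rintro rfl; exact hfw (hfy.symm.trans hfq)⟩ = f y := if_neg hyp
            rw [hx]
            exact this.trans hfy
    · have hxp : x.1 ≠ p := fun h => hx (if_pos h)
      have hfx : f' x = f x.1 := if_neg hxp
      have hxu : f x.1 ≠ f u := by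
        intro h
        rcases hblk x.1 h with h | h | h | h
        · exact x.2.1 h
        · exact x.2.2.1 h
        · exact hxp h
        · exact x.2.2.2.2 h
      rw [← hB x.1]
      refine Finset.card_bij (fun y _ => y.1) ?_ ?_ ?_
      · intro y hy
        have hy1 : f' y = f' x := (mem_filter.1 hy).2
        have hyp : y.1 ≠ p := by
          intro hyp
          exact hx (hy1.symm.trans (if_pos hyp))
        have : f' y = f y.1 := if_neg hyp
        exact mem_filter.2 ⟨mem_univ _, by rw [← this, hy1, hfx]⟩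
      · intro a _ b _ h
        exact Subtype.ext h
      · intro y hy
        have hfy : f y = f x.1 := (mem_filter.1 hy).2
        have h1 : y ≠ u := by rintro rfl; exact hxu hfy.symm
        have h2 : y ≠ v := by rintro rfl; exact hxu (hfy.symm.trans hfuv.symm)
        have h3 : y ≠ w := by rintro rfl; exact hx (hfx.trans hfy.symm)
        have h4 : y ≠ q := by rintro rfl; exact hxu (hfy.symm.trans hfq)
        have h5 : y ≠ p := by rintro rfl; exact hxu (hfy.symm.trans hfp)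
        refine ⟨⟨y, h1, h2, h3, h4⟩, mem_filter.2 ⟨mem_univ _, ?_⟩, rfl⟩
        have : f' ⟨y, h1, h2, h3, h4⟩ = f y := if_neg h5
        rw [hfx]
        exact this.trans hfy
  obtain ⟨c, hc1, hc2⟩ := hA V' β G' f' hcard hD' hB'
  -- colours
  have hqV : ∀ y, G.Adj q y → y ≠ u ∧ y ≠ v ∧ y ≠ w ∧ y ≠ q := by
    intro y hy
    refine ⟨?_, ?_, ?_, ?_⟩
    · rintro rfl; exact h0 _ _ hy hfq
    · rintro rfl; exact h0 _ _ hy (hfq.trans hfuv)
    · rintro rfl
      rcases hNw q hy.symm with h | h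
      · exact hqu h
      · exact hqv h
    · rintro rfl; exact G.irrefl hy
  have hε : ∃ ε : Fin 4, ε ≠ c ⟨p, hpV⟩ ∧ ∀ y : V', G.Adj q y.1 → c y ≠ ε := by
    by_contra hcon
    push Not at hcon
    obtain ⟨i, j, k, hi, hj, hk, hij, hik, hjk⟩ := fin4_three (c ⟨p, hpV⟩)
    obtain ⟨yi, hyi, hyi'⟩ := hcon i hi
    obtain ⟨yj, hyj, hyj'⟩ := hcon j hj
    obtain ⟨yk, hyk, hyk'⟩ := hcon k hk
    rcases hD q yi.1 yj.1 yk.1 hyi hyj hyk with h | h | h
    · exact hij (by rw [← hyi', ← hyj', Subtype.ext h])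
    · exact hik (by rw [← hyi', ← hyk', Subtype.ext h])
    · exact hjk (by rw [← hyj', ← hyk', Subtype.ext h])
  obtain ⟨ε, hεp, hεq⟩ := hε
  obtain ⟨ζ0, η0, hζη0, hζp0, hζε0, hηp0, hηε0⟩ := fin4_two _ _ hεp.symm
  have hcross : ∀ y y' : V', G.Adj u y.1 → G.Adj v y'.1 → c y ≠ c y' := by
    intro y y' hy hy'
    refine hc1 y y' ⟨?_, Or.inr (Or.inl ⟨hy.symm, hy'.symm⟩)⟩
    rintro rfl
    exact y.2.2.2.1 (hcom _ hy hy')
  have hζη : ∃ ζ η : Fin 4, ζ ≠ η ∧ ζ ≠ c ⟨p, hpV⟩ ∧ ζ ≠ ε ∧ η ≠ c ⟨p, hpV⟩ ∧ η ≠ ε ∧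
      (∀ y : V', G.Adj u y.1 → c y ≠ ζ) ∧ (∀ y : V', G.Adj v y.1 → c y ≠ η) := by
    by_contra hcon
    have hb1 : ¬ ((∀ y : V', G.Adj u y.1 → c y ≠ ζ0) ∧ (∀ y : V', G.Adj v y.1 → c y ≠ η0)) :=
      fun h => hcon ⟨ζ0, η0, hζη0, hζp0, hζε0, hηp0, hηε0, h.1, h.2⟩
    have hb2 : ¬ ((∀ y : V', G.Adj u y.1 → c y ≠ η0) ∧ (∀ y : V', G.Adj v y.1 → c y ≠ ζ0)) :=
      fun h => hcon ⟨η0, ζ0, hζη0.symm, hηp0, hηε0, hζp0, hζε0, h.1, h.2⟩
    rw [not_and_or] at hb1 hb2
    push Not at hb1 hb2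
    rcases hb1 with ⟨y, hy, hyc⟩ | ⟨y, hy, hyc⟩ <;> rcases hb2 with ⟨z, hz, hzc⟩ | ⟨z, hz, hzc⟩
    · have : y = z := Subtype.ext (hu1 _ _ hy hz y.2.2.2.1 z.2.2.2.1)
      exact hζη0 (by rw [← hyc, ← hzc, this])
    · exact hcross y z hy hz (by rw [hyc, hzc])
    · exact hcross z y hz hy (by rw [hyc, hzc])
    · have : y = z := Subtype.ext (hv1 _ _ hy hz y.2.2.2.1 z.2.2.2.1)
      exact hζη0 (by rw [← hyc, ← hzc, this])
  obtain ⟨ζ, η, hζη, hζp, hζε, hηp, hηε, hζu, hηv⟩ := hζη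
  let C : V → Fin 4 := fun x => if h : x ≠ u ∧ x ≠ v ∧ x ≠ w ∧ x ≠ q then c ⟨x, h⟩ else
    if x = u then ζ else if x = v then η else if x = w then c ⟨p, hpV⟩ else ε
  have CV : ∀ x : V', C x.1 = c x := fun x => dif_pos x.2
  have Cu : C u = ζ := by simp [C]
  have Cv : C v = η := by simp [C, huv.symm]
  have Cw : C w = c ⟨p, hpV⟩ := by simp [C, hwu, hwv]
  have Cq : C q = ε := by simp [C, hqu, hqv, hqw]
  have hcase : ∀ x : V, x = u ∨ x = v ∨ x = w ∨ x = q ∨ ∃ x' : V', x = x'.1 := by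
    intro x
    by_cases h1 : x = u
    · exact Or.inl h1
    by_cases h2 : x = v
    · exact Or.inr (Or.inl h2)
    by_cases h3 : x = w
    · exact Or.inr (Or.inr (Or.inl h3))
    by_cases h4 : x = q
    · exact Or.inr (Or.inr (Or.inr (Or.inl h4)))
    exact Or.inr (Or.inr (Or.inr (Or.inr ⟨⟨x, h1, h2, h3, h4⟩, rfl⟩)))
  -- properness at the special vertices
  have Pu : ∀ y, G.Adj u y → C u ≠ C y := by
    intro y hy
    rcases hcase y with rfl | rfl | rfl | rfl | ⟨y', rfl⟩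
    · exact absurd hy G.irrefl
    · exact absurd hfuv (h0 _ _ hy)
    · rw [Cu, Cw]; exact hζp
    · exact absurd hfq.symm (h0 _ _ hy)
    · rw [Cu, CV]; exact (hζu y' hy).symm
  have Pv : ∀ y, G.Adj v y → C v ≠ C y := by
    intro y hy
    rcases hcase y with rfl | rfl | rfl | rfl | ⟨y', rfl⟩
    · exact absurd hfuv.symm (h0 _ _ hy)
    · exact absurd hy G.irrefl
    · rw [Cv, Cw]; exact hηp
    · exact absurd (hfuv.symm.trans hfq.symm) (h0 _ _ hy)
    · rw [Cv, CV]; exact (hηv y' hy).symm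
  have Pw : ∀ y, G.Adj w y → C w ≠ C y := by
    intro y hy
    rcases hNw y hy with rfl | rfl
    · exact (Pu _ hy.symm).symm
    · exact (Pv _ hy.symm).symm
  have Pq : ∀ y, G.Adj q y → C q ≠ C y := by
    intro y hy
    have h := CV ⟨y, hqV y hy⟩
    rw [Cq]
    intro he
    exact hεq ⟨y, hqV y hy⟩ hy (h.symm.trans he.symm)
  -- blocks
  have Bu : ∀ y, f y = f u → y ≠ u → C u ≠ C y := by
    intro y hy hne
    rcases hblk y hy with rfl | rfl | rfl | rfl
    · exact absurd rfl hne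
    · rw [Cu, Cv]; exact hζη
    · rw [Cu, CV ⟨y, hpV⟩]; exact hζp
    · rw [Cu, Cq]; exact hζε
  have Bv : ∀ y, f y = f v → y ≠ v → C v ≠ C y := by
    intro y hy hne
    rcases hblk y (hy.trans hfuv.symm) with rfl | rfl | rfl | rfl
    · rw [Cu, Cv]; exact hζη.symm
    · exact absurd rfl hne
    · rw [Cv, CV ⟨y, hpV⟩]; exact hηp
    · rw [Cv, Cq]; exact hηε
  have Bq : ∀ y, f y = f q → y ≠ q → C q ≠ C y := by
    intro y hy hne
    rcases hblk y (hy.trans hfq) with rfl | rfl | rfl | rfl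
    · rw [Cu, Cq]; exact hζε.symm
    · rw [Cv, Cq]; exact hηε.symm
    · rw [Cq, CV ⟨y, hpV⟩]; exact hεp
    · exact absurd rfl hne
  have hf'p : f' ⟨p, hpV⟩ = f w := if_pos rfl
  have Bw : ∀ y, f y = f w → y ≠ w → C w ≠ C y := by
    intro y hy hne
    rcases hcase y with rfl | rfl | rfl | rfl | ⟨y', rfl⟩
    · exact absurd hy.symm hfw
    · exact absurd (hy.symm.trans hfuv.symm) hfw
    · exact absurd rfl hne
    · exact absurd (hy.symm.trans hfq) hfw
    · rw [Cw, CV]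
      have hyp : y'.1 ≠ p := by
        intro h
        exact hfw (hy.symm.trans (by rw [h]; exact hfp))
      have h1 : f' y' = f y'.1 := if_neg hyp
      refine hc2 _ _ (by rw [hf'p, h1, hy]) ?_
      intro h
      exact hyp (congrArg Subtype.val h).symm
  refine ⟨C, ?_, ?_⟩
  · intro x y hxy
    rcases hcase x with rfl | rfl | rfl | rfl | ⟨x', rfl⟩
    · exact Pu y hxy
    · exact Pv y hxy
    · exact Pw y hxy
    · exact Pq y hxy
    rcases hcase y with rfl | rfl | rfl | rfl | ⟨y', rfl⟩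
    · exact (Pu _ hxy.symm).symm
    · exact (Pv _ hxy.symm).symm
    · exact (Pw _ hxy.symm).symm
    · exact (Pq _ hxy.symm).symm
    rw [CV, CV]
    refine hc1 x' y' ⟨?_, Or.inl hxy⟩
    rintro rfl
    exact G.irrefl hxy
  · intro x y hxy hne
    rcases hcase x with rfl | rfl | rfl | rfl | ⟨x', rfl⟩
    · exact Bu y hxy.symm hne.symm
    · exact Bv y hxy.symm hne.symm
    · exact Bw y hxy.symm hne.symm
    · exact Bq y hxy.symm hne.symm
    rcases hcase y with rfl | rfl | rfl | rfl | ⟨y', rfl⟩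
    · exact (Bu _ hxy hne).symm
    · exact (Bv _ hxy hne).symm
    · exact (Bw _ hxy hne).symm
    · exact (Bq _ hxy hne).symm
    rw [CV, CV]
    have hne' : x' ≠ y' := fun h => hne (congrArg Subtype.val h)
    by_cases hxp : x'.1 = p
    · exfalso
      rcases hblk y'.1 (by rw [← hxy, hxp]; exact hfp) with h | h | h | h
      · exact y'.2.1 h
      · exact y'.2.2.1 h
      · exact hne (hxp.trans h.symm)
      · exact y'.2.2.2.2 h
    by_cases hyp : y'.1 = p
    · exfalso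
      rcases hblk x'.1 (by rw [hxy, hyp]; exact hfp) with h | h | h | h
      · exact x'.2.1 h
      · exact x'.2.2.1 h
      · exact hxp h
      · exact x'.2.2.2.2 h
    have h1 : f' x' = f x'.1 := if_neg hxp
    have h2 : f' y' = f y'.1 := if_neg hyp
    exact hc2 x' y' (by rw [h1, h2, hxy]) hne'

end Pool.Agent.H19.S4
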