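import Pool.Agent.H98.S4.Targets

/-! (HK) critical region from Hall's theorem, MP_eb32d7_co. -/

set_option autoImplicit false

namespace Pool.Agent.H19.S4

open Finset Pool.Agent.H98.S4

theorem s4_HK : T_HK := by
  intro κ β _ _ _ _ CC N
  classical
  obtain ⟨K, hK, hmax⟩ := Finset.exists_max_image CC.powerset
    (fun K => (K.card : ℤ) - ((K.biUnion N).card : ℤ)) ⟨∅, by simp⟩
  have hKC : K ⊆ CC := mem_powerset.1 hK
  have hmax' : ∀ X : Finset κ, X ⊆ CC →
      (X.card : ℤ) - ((X.biUnion N).card : ℤ) ≤ (K.card : ℤ) - ((K.biUnion N).card : ℤ) :=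
    fun X hX => hmax X (mem_powerset.2 hX)
  refine ⟨K, hKC, ?_, ?_, ?_⟩
  · have h := hmax' ∅ (empty_subset _)
    simp only [card_empty, biUnion_empty, Nat.cast_zero, sub_zero] at h
    exact ⟨K.card - (K.biUnion N).card, by omega⟩
  · -- phi
    have hall : ∀ s : Finset {C // C ∈ CC \ K},
        s.card ≤ (s.biUnion (fun C => N C.1 \ K.biUnion N)).card := by
      intro s
      have h1 := hmax' (K ∪ s.image Subtype.val) (by
        intro C hC
        rcases mem_union.1 hC with h | h
        · exact hKC h
        · obtain ⟨D, _, rfl⟩ := mem_image.1 h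
          exact (mem_sdiff.1 D.2).1)
      have hdis : Disjoint K (s.image Subtype.val) := by
        rw [disjoint_left]
        intro C hC hC'
        obtain ⟨D, _, rfl⟩ := mem_image.1 hC'
        exact (mem_sdiff.1 D.2).2 hC
      rw [card_union_of_disjoint hdis, card_image_of_injective _ Subtype.val_injective] at h1
      have h2 : (K ∪ s.image Subtype.val).biUnion N ⊆
          K.biUnion N ∪ s.biUnion (fun C => N C.1 \ K.biUnion N) := by
        intro b hb
        obtain ⟨C, hC, hbC⟩ := mem_biUnion.1 hb
        by_cases hbK : b ∈ K.biUnion N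
        · exact mem_union_left _ hbK
        · rcases mem_union.1 hC with h | h
          · exact absurd (mem_biUnion.2 ⟨C, h, hbC⟩) hbK
          · obtain ⟨D, hD, rfl⟩ := mem_image.1 h
            exact mem_union_right _ (mem_biUnion.2 ⟨D, hD, mem_sdiff.2 ⟨hbC, hbK⟩⟩)
      have h3 := (card_le_card h2).trans (card_union_le _ _)
      push_cast at h1
      omega
    obtain ⟨φ, hφi, hφ⟩ := (Finset.all_card_le_biUnion_card_iff_exists_injective _).1 hall
    refine ⟨fun C => if h : C ∈ CC \ K then φ ⟨C, h⟩ else Classical.arbitrary β, ?_, ?_⟩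
    · intro C hC
      have h := hφ ⟨C, hC⟩
      simp only [dif_pos hC]
      exact mem_sdiff.1 h
    · intro C hC D hD h
      have hC' : C ∈ CC \ K := mem_coe.1 hC
      have hD' : D ∈ CC \ K := mem_coe.1 hD
      simp only [dif_pos hC', dif_pos hD'] at h
      exact congrArg Subtype.val (hφi h)
  · -- psi
    have hall : ∀ s : Finset {b // b ∈ K.biUnion N},
        s.card ≤ (s.biUnion (fun b => K.filter (fun C => b.1 ∈ N C))).card := by
      intro s
      have h1 := hmax' (K.filter (fun C => Disjoint (N C) (s.image Subtype.val)))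
        ((filter_subset _ _).trans hKC)
      have h2 : (K.filter (fun C => Disjoint (N C) (s.image Subtype.val))).biUnion N ⊆
          K.biUnion N \ s.image Subtype.val := by
        intro b hb
        obtain ⟨C, hC, hbC⟩ := mem_biUnion.1 hb
        obtain ⟨hCK, hdis⟩ := mem_filter.1 hC
        exact mem_sdiff.2 ⟨mem_biUnion.2 ⟨C, hCK, hbC⟩, disjoint_left.1 hdis hbC⟩
      have h3 := card_le_card h2
      have hsub : s.image Subtype.val ⊆ K.biUnion N := by
        intro b hb
        obtain ⟨D, _, rfl⟩ := mem_image.1 hb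
        exact D.2
      rw [card_sdiff_of_subset hsub, card_image_of_injective _ Subtype.val_injective] at h3
      have h4 := card_le_card hsub
      rw [card_image_of_injective _ Subtype.val_injective] at h4
      have h5 : K.filter (fun C => ¬ Disjoint (N C) (s.image Subtype.val)) ⊆
          s.biUnion (fun b => K.filter (fun C => b.1 ∈ N C)) := by
        intro C hC
        obtain ⟨hCK, hdis⟩ := mem_filter.1 hC
        rw [not_disjoint_iff] at hdis
        obtain ⟨b, hb, hb'⟩ := hdis
        obtain ⟨D, hD, rfl⟩ := mem_image.1 hb'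
        exact mem_biUnion.2 ⟨D, hD, mem_filter.2 ⟨hCK, hb⟩⟩
      have h6 := card_le_card h5
      have h7 := card_filter_add_card_filter_not (s := K)
        (fun C => Disjoint (N C) (s.image Subtype.val))
      omega
    obtain ⟨ψ, hψi, hψ⟩ := (Finset.all_card_le_biUnion_card_iff_exists_injective _).1 hall
    refine ⟨fun b => if h : b ∈ K.biUnion N then ψ ⟨b, h⟩ else Classical.arbitrary κ, ?_, ?_⟩
    · intro b hb
      have h := hψ ⟨b, hb⟩
      simp only [dif_pos hb]
      exact mem_filter.1 h
    · intro b hb b' hb' h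
      have hb1 : b ∈ K.biUnion N := mem_coe.1 hb
      have hb2 : b' ∈ K.biUnion N := mem_coe.1 hb'
      simp only [dif_pos hb1, dif_pos hb2] at h
      exact congrArg Subtype.val (hψi h)

end Pool.Agent.H19.S4
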