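import Pool.Agent.H98.S4.Targets

/-! (IT) independent transversal, MP_eb32d7_co. -/

set_option autoImplicit false

namespace Pool.Agent.H19.S4

open Finset Pool.Agent.H98.S4

theorem s4_IT : T_IT := by
  intro V β _ _ _ G f hD hB h0 hA
  classical
  rcases isEmpty_or_nonempty V with hE | ⟨⟨v0⟩⟩
  · exact ⟨∅, fun v => (hE.false v).elim, by simp, by simp⟩
  have hcard : Fintype.card {x : V // f x ≠ f v0} < Fintype.card V :=
    Fintype.card_subtype_lt (x := v0) (by simp)
  have hD' : Deg2 (G.comap (fun x : {x : V // f x ≠ f v0} => x.1)) := by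
    intro x a b c h1 h2 h3
    rcases hD x.1 a.1 b.1 c.1 h1 h2 h3 with h | h | h
    · exact Or.inl (Subtype.ext h)
    · exact Or.inr (Or.inl (Subtype.ext h))
    · exact Or.inr (Or.inr (Subtype.ext h))
  have hB' : Blk4 (fun x : {x : V // f x ≠ f v0} => f x.1) := by
    intro v
    rw [← hB v.1]
    refine Finset.card_bij (fun u _ => u.1) ?_ ?_ ?_
    · intro u hu
      simp only [mem_filter, mem_univ, true_and] at hu ⊢
      exact hu
    · intro u _ u' _ h
      exact Subtype.ext h
    · intro u hu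
      simp only [mem_filter, mem_univ, true_and] at hu
      exact ⟨⟨u, by rw [hu]; exact v.2⟩, by simpa using hu, rfl⟩
  obtain ⟨c, hc1, hc2⟩ := hA _ β (G.comap (fun x : {x : V // f x ≠ f v0} => x.1))
    (fun x => f x.1) hcard hD' hB'
  have hi : ∃ i : Fin 4, ∀ x : {x : V // f x ≠ f v0}, G.Adj v0 x.1 → c x ≠ i := by
    by_contra hcon
    push Not at hcon
    choose g hg1 hg2 using hcon
    have inj : ∀ i j, (g i).1 = (g j).1 → i = j := fun i j h => by
      rw [← hg2 i, ← hg2 j, Subtype.ext h]
    rcases hD v0 (g 0).1 (g 1).1 (g 2).1 (hg1 0) (hg1 1) (hg1 2) with h | h | h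
    · exact absurd (inj _ _ h) (by decide)
    · exact absurd (inj _ _ h) (by decide)
    · exact absurd (inj _ _ h) (by decide)
  obtain ⟨i, hi⟩ := hi
  refine ⟨univ.filter (fun x => x = v0 ∨ ∃ h : f x ≠ f v0, c ⟨x, h⟩ = i), ?_, ?_, ?_⟩
  · intro v
    by_cases hv : f v = f v0
    · exact ⟨v0, by simp, hv.symm⟩
    · have hcb := hB' ⟨v, hv⟩
      have him : ((univ.filter (fun u : {x : V // f x ≠ f v0} => f u.1 = f v)).image c).card
          = 4 := by
        rw [card_image_of_injOn]
        · exact hcb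
        · intro a ha b hb hab
          by_contra hne
          have ha' := (mem_filter.1 (mem_coe.1 ha)).2
          have hb' := (mem_filter.1 (mem_coe.1 hb)).2
          exact hc2 a b (ha'.trans hb'.symm) hne hab
      have huniv := Finset.eq_univ_of_card _ (by rw [him]; simp)
      have hmem : i ∈ (univ.filter (fun u : {x : V // f x ≠ f v0} => f u.1 = f v)).image c := by
        rw [huniv]; exact mem_univ i
      obtain ⟨u, hu, hui⟩ := mem_image.1 hmem
      simp only [mem_filter, mem_univ, true_and] at hu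
      refine ⟨u.1, ?_, hu⟩
      simp only [mem_filter, mem_univ, true_and]
      exact Or.inr ⟨u.2, hui⟩
  · intro x hx y hy hxy
    simp only [mem_filter, mem_univ, true_and] at hx hy
    rcases hx with rfl | ⟨hx, hxi⟩ <;> rcases hy with rfl | ⟨hy, hyi⟩
    · rfl
    · exact absurd hxy.symm hy
    · exact absurd hxy hx
    · by_contra hne
      exact hc2 ⟨x, hx⟩ ⟨y, hy⟩ hxy (fun h => hne (congrArg Subtype.val h)) (by rw [hxi, hyi])
  · intro x hx y hy hadj
    simp only [mem_filter, mem_univ, true_and] at hx hy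
    rcases hx with rfl | ⟨hx, hxi⟩ <;> rcases hy with rfl | ⟨hy, hyi⟩
    · exact G.irrefl hadj
    · exact hi ⟨y, hy⟩ hadj hyi
    · exact hi ⟨x, hx⟩ hadj.symm hxi
    · exact hc1 ⟨x, hx⟩ ⟨y, hy⟩ hadj (by rw [hxi, hyi])

end Pool.Agent.H19.S4
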